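import Mathlib

/-! Sums of squares of `R_{n,r}`: recurrences. -/

set_option autoImplicit false

namespace Pool.Agent.Q278.RS

open Finset

/-- coefficients of the shifted Legendre polynomial -/
def c (n k : ℕ) : ℚ := (Nat.choose (n + k) (2 * k) : ℚ) * (Nat.choose (2 * k) k : ℚ)

lemma c_zero (n : ℕ) : c n 0 = 1 := by simp [c]

lemma c_big (n k : ℕ) (h : n < k) : c n k = 0 := by
  unfold c
  rw [Nat.choose_eq_zero_of_lt (by omega)]; simp

/-- `C(2k+2, k+1) (k+1) = 2 (2k+1) C(2k,k)` -/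
lemma cb_succ (k : ℕ) : ((k : ℚ) + 1) * (Nat.choose (2 * (k + 1)) (k + 1) : ℚ) =
    2 * (2 * k + 1) * (Nat.choose (2 * k) k : ℚ) := by
  have h := Nat.succ_mul_centralBinom_succ k
  unfold Nat.centralBinom at h
  have h2 := congrArg (Nat.cast : ℕ → ℚ) h
  push_cast at h2
  linear_combination h2

/-- `C(n+k+1, 2k+2) (2k+2)(2k+1) = (n+k+1)(n-k) C(n+k, 2k)` -/
lemma ch_succ (n k : ℕ) : (2 * (k : ℚ) + 2) * (2 * k + 1) * (Nat.choose (n + (k + 1)) (2 * (k + 1)) : ℚ) =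
    ((n : ℚ) + k + 1) * (n - k) * (Nat.choose (n + k) (2 * k) : ℚ) := by
  rcases Nat.lt_or_ge n k with h | h
  · rw [Nat.choose_eq_zero_of_lt (by omega), Nat.choose_eq_zero_of_lt (by omega)]; simp
  · have h1 : (n + (k + 1)).choose (2 * (k + 1)) * (2 * (k + 1)) =
        (n + (k + 1)) * (n + k).choose (2 * k + 1) := by
      have := Nat.add_one_mul_choose_eq (n + k) (2 * k + 1)
      have e1 : n + k + 1 = n + (k + 1) := by omega
      have e2 : 2 * k + 1 + 1 = 2 * (k + 1) := by omega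
      rw [e1, e2] at this
      exact this.symm
    have h2 := Nat.choose_succ_right_eq (n + k) (2 * k)
    have h1' := congrArg (Nat.cast : ℕ → ℚ) h1
    have h2' := congrArg (Nat.cast : ℕ → ℚ) h2
    rw [Nat.cast_mul, Nat.cast_mul, Nat.cast_sub (by omega)] at h2'
    push_cast at h1' h2'
    linear_combination (2 * (k : ℚ) + 1) * h1' + ((n : ℚ) + k + 1) * h2'

/-- the differential equation -/
lemma c_ode (n k : ℕ) : ((k : ℚ) + 1) ^ 2 * c n (k + 1) = ((n : ℚ) * (n + 1) - k * (k + 1)) * c n k := by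
  unfold c
  have h1 := cb_succ k
  have h2 := ch_succ n k
  have h3 : (2 * (k : ℚ) + 1) ≠ 0 := by positivity
  have h4 : ((k : ℚ) + 1) ≠ 0 := by positivity
  apply mul_left_cancel₀ (mul_ne_zero h3 (mul_ne_zero two_ne_zero h4))
  linear_combination 2 * ((k : ℚ) + 1) ^ 2 * (2 * k + 1) * (Nat.choose (n + (k + 1)) (2 * (k + 1)) : ℚ) * h1 +
    2 * (2 * k + 1) * (Nat.choose (2 * k) k : ℚ) * (k + 1) * h2

/-- shift in `n` -/
lemma c_n (n k : ℕ) : ((n : ℚ) + 1 - k) * c (n + 1) k = ((n : ℚ) + 1 + k) * c n k := by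
  rcases Nat.lt_or_ge (n + 1) k with h | h
  · rw [c_big _ _ (by omega), c_big _ _ (by omega)]; simp
  · unfold c
    have h2 : (n + k + 1 - 2 * k) * (n + k + 1).choose (2 * k) = (n + k + 1) * (n + k).choose (2 * k) := by
      rw [Nat.mul_comm, Nat.mul_comm (n + k + 1)]
      exact (Nat.choose_mul_succ_eq (n + k) (2 * k)).symm
    have h2' := congrArg (Nat.cast : ℕ → ℚ) h2
    rw [Nat.cast_mul, Nat.cast_mul, Nat.cast_sub (by omega)] at h2'
    push_cast at h2'
    have e1 : n + 1 + k = n + k + 1 := by omega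
    rw [e1]
    linear_combination (Nat.choose (2 * k) k : ℚ) * h2'

/-- Legendre's recurrence -/
lemma c_rec (n k : ℕ) : ((n : ℚ) + 2) * c (n + 2) (k + 1) =
    (2 * n + 3) * (c (n + 1) (k + 1) + 2 * c (n + 1) k) - (n + 1) * c n (k + 1) := by
  rcases Nat.lt_or_ge n k with h | h
  · rcases Nat.lt_or_ge (n + 1) k with h' | h'
    · rw [c_big _ _ (by omega), c_big _ _ (by omega), c_big _ _ (by omega), c_big _ _ (by omega)]; ring
    · obtain rfl : k = n + 1 := by omega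
      rw [c_big (n + 1) (n + 1 + 1) (by omega), c_big n (n + 1 + 1) (by omega)]
      have h1 := c_ode (n + 2) (n + 1)
      have h2 := c_n (n + 1) (n + 1)
      push_cast at h1 h2
      have h3 : ((n : ℚ) + 2) ≠ 0 := by positivity
      apply mul_left_cancel₀ h3
      linear_combination h1 + (2 * (n : ℚ) + 4) * h2
  · -- k ≤ n
    have a1 := c_n n (k + 1)
    have a2 := c_n (n + 1) (k + 1)
    have a3 := c_ode (n + 1) k
    push_cast at a1 a2 a3
    have hk : (k : ℚ) ≤ n := by exact_mod_cast h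
    have h3 : ((n : ℚ) + 1 - k) ≠ 0 := by linarith
    have h4 : ((n : ℚ) + k + 2) ≠ 0 := by positivity
    apply mul_left_cancel₀ (mul_ne_zero h3 h4)
    have e1 : c (n + 1 + 1) (k + 1) = c (n + 2) (k + 1) := rfl
    rw [e1] at a2
    linear_combination ((n : ℚ) + 2) * (n + k + 2) * a2 - ((n : ℚ) + 1) * (n + 1 - k) * a1 +
      2 * (2 * (n : ℚ) + 3) * a3

/-- the functional with weights `w` -/
def F (w : ℕ → ℚ) (n : ℕ) : ℚ := ∑ k ∈ range (n + 1), c n k * w k

lemma F_ext (w : ℕ → ℚ) (n N : ℕ) (h : n + 1 ≤ N) : ∑ k ∈ range N, c n k * w k = F w n := by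
  unfold F
  symm
  apply sum_subset
  · intro k hk
    rw [mem_range] at *
    omega
  · intro k _ hk
    rw [mem_range] at hk
    rw [c_big _ _ (by omega), zero_mul]

lemma F_rec (w : ℕ → ℚ) (n : ℕ) : ((n : ℚ) + 2) * F w (n + 2) =
    (2 * n + 3) * (F w (n + 1) + 2 * F (fun k => w (k + 1)) (n + 1)) - (n + 1) * F w n := by
  rw [← F_ext w (n + 2) (n + 3) (by omega), ← F_ext w (n + 1) (n + 3) (by omega),
    ← F_ext w n (n + 3) (by omega), ← F_ext (fun k => w (k + 1)) (n + 1) (n + 2) (by omega)]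
  rw [sum_range_succ' _ (n + 2), sum_range_succ' _ (n + 2), sum_range_succ' _ (n + 2)]
  rw [c_zero, c_zero, c_zero]
  have h : ((n : ℚ) + 2) * ∑ k ∈ range (n + 2), c (n + 2) (k + 1) * w (k + 1) =
      (2 * n + 3) * (∑ k ∈ range (n + 2), c (n + 1) (k + 1) * w (k + 1) +
        2 * ∑ k ∈ range (n + 2), c (n + 1) k * w (k + 1)) -
      (n + 1) * ∑ k ∈ range (n + 2), c n (k + 1) * w (k + 1) := by
    rw [mul_sum, mul_sum, mul_sum, ← sum_add_distrib, mul_sum, ← sum_sub_distrib]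
    refine sum_congr rfl fun k _ => ?_
    linear_combination w (k + 1) * c_rec n k
  linear_combination h

lemma F_one (w : ℕ → ℚ) : F w 1 = F w 0 + 2 * F (fun k => w (k + 1)) 0 := by
  simp [F, sum_range_succ, c]

lemma F_ode (w : ℕ → ℚ) (n : ℕ) : F (fun k => (k : ℚ) ^ 2 * w k) n =
    (n : ℚ) * (n + 1) * F (fun k => w (k + 1)) n - F (fun k => (k : ℚ) * (k + 1) * w (k + 1)) n := by
  rw [← F_ext _ n (n + 2) (by omega)]
  unfold F
  rw [sum_range_succ', mul_sum, ← sum_sub_distrib]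
  have h0 : c n 0 * (((0 : ℕ) : ℚ) ^ 2 * w 0) = 0 := by simp
  rw [h0, add_zero]
  refine sum_congr rfl fun k _ => ?_
  have h := c_ode n k
  push_cast
  linear_combination w (k + 1) * h

lemma F_add (w w' : ℕ → ℚ) (n : ℕ) : F (fun k => w k + w' k) n = F w n + F w' n := by
  unfold F
  rw [← sum_add_distrib]
  exact sum_congr rfl fun k _ => by ring

lemma F_smul (a : ℚ) (w : ℕ → ℚ) (n : ℕ) : F (fun k => a * w k) n = a * F w n := by
  unfold F
  rw [mul_sum]
  exact sum_congr rfl fun k _ => by ring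

/-- `R_{n,s}` -/
def R (s : ℤ) (n : ℕ) : ℚ := F (fun k => 1 / (2 * (k : ℚ) - 2 * s - 1)) n

/-- central Delannoy numbers -/
def D (n : ℕ) : ℚ := F (fun _ => 1) n

/-- weighted version -/
def D' (n : ℕ) : ℚ := F (fun k => (k : ℚ)) n

lemma den_ne (k : ℕ) (s : ℤ) : 2 * (k : ℚ) - 2 * s - 1 ≠ 0 := by
  intro h
  have h1 : ((2 * (k : ℤ) - 2 * s - 1 : ℤ) : ℚ) = 0 := by push_cast; exact h
  have h2 : (2 * (k : ℤ) - 2 * s - 1 : ℤ) = 0 := by exact_mod_cast h1
  omega

lemma R_shift (s : ℤ) (n : ℕ) : F (fun k => 1 / (2 * ((k + 1 : ℕ) : ℚ) - 2 * s - 1)) n = R (s - 1) n := by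
  unfold R
  congr 1
  funext k
  congr 1
  push_cast
  ring

lemma R_rec (s : ℤ) (n : ℕ) : ((n : ℚ) + 2) * R s (n + 2) =
    (2 * n + 3) * (R s (n + 1) + 2 * R (s - 1) (n + 1)) - (n + 1) * R s n := by
  have h := F_rec (fun k => 1 / (2 * (k : ℚ) - 2 * s - 1)) n
  rw [R_shift] at h
  exact h

lemma R_one (s : ℤ) : R s 1 = R s 0 + 2 * R (s - 1) 0 := by
  have h := F_one (fun k => 1 / (2 * (k : ℚ) - 2 * s - 1))
  rw [R_shift] at h
  exact h

lemma D_rec (n : ℕ) : ((n : ℚ) + 2) * D (n + 2) = (2 * n + 3) * (3 * D (n + 1)) - (n + 1) * D n := by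
  have h := F_rec (fun _ => 1) n
  unfold D
  linear_combination h

lemma D_one : D 1 = 3 * D 0 := by
  have h := F_one (fun _ => 1)
  unfold D
  linear_combination h

lemma D'_shift (n : ℕ) : F (fun k => ((k + 1 : ℕ) : ℚ)) n = D' n + D n := by
  unfold D' D
  rw [← F_add]
  congr 1
  funext k
  push_cast
  ring

lemma D'_rec (n : ℕ) : ((n : ℚ) + 2) * D' (n + 2) =
    (2 * n + 3) * (3 * D' (n + 1) + 2 * D (n + 1)) - (n + 1) * D' n := by
  have h := F_rec (fun k => (k : ℚ)) n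
  rw [D'_shift] at h
  have e : ∀ m, F (fun k => (k : ℚ)) m = D' m := fun _ => rfl
  rw [e, e, e] at h
  linear_combination h

lemma D'_one : D' 1 = 3 * D' 0 + 2 * D 0 := by
  have h := F_one (fun k => (k : ℚ))
  rw [D'_shift] at h
  have e : ∀ m, F (fun k => (k : ℚ)) m = D' m := fun _ => rfl
  rw [e, e] at h
  linear_combination h

/-- the differential equation for `R` -/
lemma R_ode (r : ℤ) (n : ℕ) : (2 * (r : ℚ) + 1) ^ 2 * R r n =
    ((2 * (n : ℚ) + 1) ^ 2 - 4 * r ^ 2) * R (r - 1) n - 4 * D' n - 2 * (2 * r + 1) * D n := by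
  have h := F_ode (fun k => 1 / (2 * (k : ℚ) - 2 * r - 1)) n
  rw [R_shift] at h
  have h1 : F (fun k => (k : ℚ) ^ 2 * (1 / (2 * (k : ℚ) - 2 * r - 1))) n =
      1 / 2 * D' n + (2 * r + 1) / 4 * D n + (2 * (r : ℚ) + 1) ^ 2 / 4 * R r n := by
    unfold D' D R
    rw [← F_smul, ← F_smul, ← F_smul, ← F_add, ← F_add]
    congr 1
    funext k
    have hd := one_div_mul_cancel (den_ne k r)
    linear_combination (1 / 2) * ((k : ℚ) + (2 * r + 1) / 2) * hd
  have h2 : F (fun k => (k : ℚ) * (k + 1) * (1 / (2 * ((k + 1 : ℕ) : ℚ) - 2 * r - 1))) n =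
      1 / 2 * D' n + (2 * r + 1) / 4 * D n + (4 * (r : ℚ) ^ 2 - 1) / 4 * R (r - 1) n := by
    unfold D' D R
    rw [← F_smul, ← F_smul, ← F_smul, ← F_add, ← F_add]
    congr 1
    funext k
    have hd := one_div_mul_cancel (den_ne (k + 1) r)
    push_cast at hd ⊢
    have h5 : 2 * (k : ℚ) - 2 * (r - 1) - 1 = 2 * (k + 1) - 2 * r - 1 := by ring
    rw [h5]
    linear_combination ((2 * (k : ℚ) + 1 + 2 * r) / 4) * hd
  rw [h1, h2] at h
  linear_combination 4 * h

/-! ### Telescoping -/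

/-- the bracket -/
def br (u v : ℕ → ℚ) (n : ℕ) : ℚ := n * (u n * v (n - 1) - u (n - 1) * v n)

lemma telescope (u u' v v' : ℕ → ℚ)
    (hu : ∀ n : ℕ, ((n : ℚ) + 2) * u (n + 2) = (2 * n + 3) * u' (n + 1) - (n + 1) * u n)
    (hv : ∀ n : ℕ, ((n : ℚ) + 2) * v (n + 2) = (2 * n + 3) * v' (n + 1) - (n + 1) * v n)
    (hu1 : u 1 = u' 0) (hv1 : v 1 = v' 0) (n : ℕ) :
    ∑ k ∈ range n, (2 * (k : ℚ) + 1) * (u' k * v k - u k * v' k) = br u v n := by
  induction n with
  | zero => simp [br]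
  | succ n ih =>
    rw [sum_range_succ, ih]
    rcases Nat.eq_zero_or_pos n with rfl | h
    · simp only [br, Nat.cast_zero, Nat.zero_add, Nat.sub_self, Nat.cast_one, hu1, hv1]
      ring
    · obtain ⟨m, rfl⟩ : ∃ m, n = m + 1 := ⟨n - 1, by omega⟩
      unfold br
      simp only [Nat.add_sub_cancel]
      have h1 := hu m
      have h2 := hv m
      push_cast
      linear_combination -v (m + 1) * h1 + u (m + 1) * h2

end Pool.Agent.Q278.RS
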