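import Mathlib
import Pool.Agent.Q278.RS.Basic

/-! Divisibility by `n` up to bounded multipliers. -/

set_option autoImplicit false

namespace Pool.Agent.Q278.RS

open Finset

/-- `a x_n / n` has denominator prime to `n`, for a fixed nonzero integer `a` -/
def Nice (x : ℕ → ℚ) : Prop :=
  ∃ a : ℤ, a ≠ 0 ∧ ∀ n : ℕ, 1 ≤ n → ∃ u v : ℤ, IsCoprime v (n : ℤ) ∧ v ≠ 0 ∧ (a : ℚ) * x n * v = n * u

lemma Nice.congr {x y : ℕ → ℚ} (h : ∀ n, x n = y n) (hx : Nice x) : Nice y := by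
  have : x = y := funext h
  rwa [← this]

lemma Nice.add {x y : ℕ → ℚ} (hx : Nice x) (hy : Nice y) : Nice (fun n => x n + y n) := by
  obtain ⟨a, ha, h1⟩ := hx
  obtain ⟨a', ha', h2⟩ := hy
  refine ⟨a * a', mul_ne_zero ha ha', fun n hn => ?_⟩
  obtain ⟨u, v, hc, hv, he⟩ := h1 n hn
  obtain ⟨u', v', hc', hv', he'⟩ := h2 n hn
  refine ⟨a' * u * v' + a * u' * v, v * v', hc.mul_left hc', mul_ne_zero hv hv', ?_⟩
  push_cast
  linear_combination (a' : ℚ) * v' * he + (a : ℚ) * v * he'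

lemma Nice.smul {x : ℕ → ℚ} (hx : Nice x) (q : ℚ) : Nice (fun n => q * x n) := by
  obtain ⟨a, ha, h1⟩ := hx
  refine ⟨a * q.den, mul_ne_zero ha (by exact_mod_cast q.den_nz), fun n hn => ?_⟩
  obtain ⟨u, v, hc, hv, he⟩ := h1 n hn
  refine ⟨q.num * u, v, hc, hv, ?_⟩
  push_cast
  have hq : (q.den : ℚ) * q = q.num := by
    rw [mul_comm]; exact_mod_cast Rat.mul_den_eq_num q
  linear_combination (q.num : ℚ) * he + (a : ℚ) * x n * v * hq

lemma Nice.sub {x y : ℕ → ℚ} (hx : Nice x) (hy : Nice y) : Nice (fun n => x n - y n) :=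
  (hx.add (hy.smul (-1))).congr fun n => by ring

/-- `a (2n+1)² x_n` is an integer, for a fixed nonzero integer `a` -/
def Al (x : ℕ → ℚ) : Prop := ∃ a : ℤ, a ≠ 0 ∧ ∀ n : ℕ, ∃ u : ℤ, (a : ℚ) * (2 * n + 1) ^ 2 * x n = u

lemma br_nice {x y : ℕ → ℚ} (hx : Al x) (hy : Al y) : Nice (br x y) := by
  obtain ⟨a, ha, h1⟩ := hx
  obtain ⟨a', ha', h2⟩ := hy
  refine ⟨a * a', mul_ne_zero ha ha', fun n hn => ?_⟩
  obtain ⟨m, rfl⟩ : ∃ m, n = m + 1 := ⟨n - 1, by omega⟩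
  obtain ⟨u1, e1⟩ := h1 (m + 1)
  obtain ⟨u0, e0⟩ := h1 m
  obtain ⟨w1, f1⟩ := h2 (m + 1)
  obtain ⟨w0, f0⟩ := h2 m
  refine ⟨u1 * w0 - u0 * w1, (2 * (m + 1 : ℕ) + 1) ^ 2 * (2 * (m : ℤ) + 1) ^ 2, ?_, ?_, ?_⟩
  · apply IsCoprime.mul_left
    · apply IsCoprime.pow_left
      exact ⟨1, -2, by push_cast; ring⟩
    · apply IsCoprime.pow_left
      exact ⟨-1, 2, by push_cast; ring⟩
  · positivity
  · unfold br
    simp only [Nat.add_sub_cancel]
    push_cast at *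
    linear_combination ((m : ℚ) + 1) * ((a' : ℚ) * (2 * m + 1) ^ 2 * y m * e1 + u1 * f0 -
      (a' : ℚ) * (2 * (m + 1) + 1) ^ 2 * y (m + 1) * e0 - u0 * f1)

lemma int_sum (w : ℕ → ℚ) (hw : ∀ k, ∃ u : ℤ, (Nat.choose (2 * k) k : ℚ) * w k = u) (n : ℕ) :
    ∃ u : ℤ, F w n = u := by
  choose f hf using hw
  refine ⟨∑ k ∈ range (n + 1), (Nat.choose (n + k) (2 * k) : ℤ) * f k, ?_⟩
  unfold F c
  push_cast
  refine sum_congr rfl fun k _ => ?_
  rw [mul_assoc, hf]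

lemma D_int (n : ℕ) : ∃ u : ℤ, D n = u :=
  int_sum _ (fun k => ⟨(Nat.choose (2 * k) k : ℤ), by push_cast; ring⟩) n

lemma D'_int (n : ℕ) : ∃ u : ℤ, D' n = u :=
  int_sum _ (fun k => ⟨(Nat.choose (2 * k) k : ℤ) * k, by push_cast; ring⟩) n

lemma R0_int (n : ℕ) : ∃ u : ℤ, R 0 n = u := by
  apply int_sum
  intro k
  rcases Nat.eq_zero_or_pos k with rfl | h
  · exact ⟨-1, by norm_num⟩
  · obtain ⟨m, rfl⟩ : ∃ m, k = m + 1 := ⟨k - 1, by omega⟩
    refine ⟨2 * (catalan m : ℤ), ?_⟩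
    have h1 := cb_succ m
    have h2 := congrArg (Nat.cast : ℕ → ℚ) (succ_mul_catalan_eq_centralBinom m)
    unfold Nat.centralBinom at h2
    push_cast at h2 ⊢
    have h3 : ((m : ℚ) + 1) ≠ 0 := by positivity
    have h4 : (2 * ((m : ℚ) + 1) - 2 * 0 - 1) ≠ 0 := by
      have : (2 * ((m : ℚ) + 1) - 2 * 0 - 1) = 2 * m + 1 := by ring
      rw [this]; positivity
    apply mul_left_cancel₀ h3
    rw [mul_one_div, mul_div_assoc', div_eq_iff h4]
    linear_combination h1 - 2 * (2 * (m : ℚ) + 1) * h2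

lemma D_al : Al D := ⟨1, one_ne_zero, fun n => by
  obtain ⟨u, hu⟩ := D_int n
  exact ⟨(2 * n + 1) ^ 2 * u, by rw [hu]; push_cast; ring⟩⟩

lemma D'_al : Al D' := ⟨1, one_ne_zero, fun n => by
  obtain ⟨u, hu⟩ := D'_int n
  exact ⟨(2 * n + 1) ^ 2 * u, by rw [hu]; push_cast; ring⟩⟩

lemma Rneg_al : Al (R (-1)) := ⟨1, one_ne_zero, fun n => by
  obtain ⟨u, hu⟩ := D_int n
  obtain ⟨u', hu'⟩ := D'_int n
  obtain ⟨w, hw⟩ := R0_int n
  refine ⟨w + 4 * u' + 2 * u, ?_⟩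
  have h := R_ode 0 n
  rw [show (0 : ℤ) - 1 = -1 by norm_num, hu, hu', hw] at h
  push_cast at h ⊢
  linear_combination -h⟩

lemma R_al (s : ℕ) : Al (R (s : ℤ)) := by
  induction s with
  | zero =>
    refine ⟨1, one_ne_zero, fun n => ?_⟩
    obtain ⟨u, hu⟩ := R0_int n
    refine ⟨(2 * n + 1) ^ 2 * u, ?_⟩
    rw [Nat.cast_zero, hu]; push_cast; ring
  | succ s ih =>
    obtain ⟨a, ha, h⟩ := ih
    refine ⟨a * (2 * (s + 1) + 1) ^ 2, mul_ne_zero ha (by positivity), fun n => ?_⟩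
    obtain ⟨w, hw⟩ := h n
    obtain ⟨u, hu⟩ := D_int n
    obtain ⟨u', hu'⟩ := D'_int n
    refine ⟨((2 * n + 1) ^ 2 - 4 * (s + 1) ^ 2) * w - 4 * a * (2 * n + 1) ^ 2 * u' -
      2 * (2 * (s + 1) + 1) * a * (2 * n + 1) ^ 2 * u, ?_⟩
    have h1 := R_ode ((s + 1 : ℕ) : ℤ) n
    rw [show ((s + 1 : ℕ) : ℤ) - 1 = (s : ℤ) by push_cast; ring, hu, hu'] at h1
    push_cast at h1 ⊢
    linear_combination (a : ℚ) * (2 * (n : ℚ) + 1) ^ 2 * h1 +
      ((2 * (n : ℚ) + 1) ^ 2 - 4 * (s + 1) ^ 2) * hw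

lemma R_al' (s : ℤ) (hs : -1 ≤ s) : Al (R s) := by
  rcases lt_or_eq_of_le hs with h | h
  · obtain ⟨m, rfl⟩ : ∃ m : ℕ, s = m := ⟨s.toNat, by omega⟩
    exact R_al m
  · rw [← h]; exact Rneg_al

/-! ### The sums -/

/-- bilinear sums -/
def S (u v : ℕ → ℚ) (n : ℕ) : ℚ := ∑ k ∈ range n, (2 * (k : ℚ) + 1) * (u k * v k)

lemma S_lin (a b a' b' : ℚ) (u v u' v' : ℕ → ℚ) (u2 v2 u3 v3 : ℕ → ℚ) (n : ℕ) :
    ∑ k ∈ range n, (2 * (k : ℚ) + 1) * (a * (u k * v k) + b * (u' k * v' k) + a' * (u2 k * v2 k) +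
      b' * (u3 k * v3 k)) = a * S u v n + b * S u' v' n + a' * S u2 v2 n + b' * S u3 v3 n := by
  unfold S
  rw [mul_sum, mul_sum, mul_sum, mul_sum, ← sum_add_distrib, ← sum_add_distrib, ← sum_add_distrib]
  exact sum_congr rfl fun k _ => by ring

/-- (1) -/
lemma rel1 (r s : ℤ) (n : ℕ) : S (R (r - 1)) (R s) n - S (R r) (R (s - 1)) n = 1 / 2 * br (R r) (R s) n := by
  have h := telescope (R r) (fun k => R r k + 2 * R (r - 1) k) (R s) (fun k => R s k + 2 * R (s - 1) k)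
    (fun n => R_rec r n) (fun n => R_rec s n) (R_one r) (R_one s) n
  rw [← h]
  unfold S
  rw [← sum_sub_distrib, mul_sum]
  exact sum_congr rfl fun k _ => by ring

/-- (2) -/
lemma rel2 (s : ℤ) (n : ℕ) : S D (R s) n - S D (R (s - 1)) n = 1 / 2 * br D (R s) n := by
  have h := telescope D (fun k => 3 * D k) (R s) (fun k => R s k + 2 * R (s - 1) k)
    (fun n => D_rec n) (fun n => R_rec s n) D_one (R_one s) n
  rw [← h]
  unfold S
  rw [← sum_sub_distrib, mul_sum]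
  exact sum_congr rfl fun k _ => by ring

/-- (3) -/
lemma rel3 (s : ℤ) (n : ℕ) : S D (R s) n + S D' (R s) n - S D' (R (s - 1)) n =
    1 / 2 * br D' (R s) n := by
  have h := telescope D' (fun k => 3 * D' k + 2 * D k) (R s) (fun k => R s k + 2 * R (s - 1) k)
    (fun n => D'_rec n) (fun n => R_rec s n) D'_one (R_one s) n
  rw [← h]
  unfold S
  rw [← sum_add_distrib, ← sum_sub_distrib, mul_sum]
  exact sum_congr rfl fun k _ => by ring

/-- (4) -/
lemma rel4 (r s : ℤ) (n : ℕ) :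
    (2 * (r : ℚ) + 1) ^ 2 * S (R r) (R s) n - (2 * (s : ℚ) + 3) ^ 2 * S (R (r - 1)) (R (s + 1)) n =
      4 * (((s : ℚ) + 1) ^ 2 - r ^ 2) * S (R (r - 1)) (R s) n - 4 * (S D' (R s) n - S D' (R (r - 1)) n) -
      2 * ((2 * r + 1) * S D (R s) n - (2 * s + 3) * S D (R (r - 1)) n) := by
  unfold S
  simp only [mul_sum, ← sum_sub_distrib]
  refine sum_congr rfl fun k _ => ?_
  have h1 := R_ode r k
  have h2 := R_ode (s + 1) k
  rw [add_sub_cancel_right] at h2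
  push_cast at h2
  linear_combination (2 * (k : ℚ) + 1) * (R s k * h1 - R (r - 1) k * h2)

/-! ### Conclusion -/

lemma n1 (r s : ℤ) (hr : -1 ≤ r) (hs : -1 ≤ s) :
    Nice (fun n => S (R (r - 1)) (R s) n - S (R r) (R (s - 1)) n) :=
  ((br_nice (R_al' r hr) (R_al' s hs)).smul (1 / 2)).congr fun n => (rel1 r s n).symm

lemma n2 (s : ℤ) (hs : -1 ≤ s) : Nice (fun n => S D (R s) n - S D (R (s - 1)) n) :=
  ((br_nice D_al (R_al' s hs)).smul (1 / 2)).congr fun n => (rel2 s n).symm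

lemma n3 (s : ℤ) (hs : -1 ≤ s) :
    Nice (fun n => S D (R s) n + S D' (R s) n - S D' (R (s - 1)) n) :=
  ((br_nice D'_al (R_al' s hs)).smul (1 / 2)).congr fun n => (rel3 s n).symm

lemma nice_zero : Nice (fun _ => 0) := ⟨1, one_ne_zero, fun n _ => ⟨0, 1, isCoprime_one_left, one_ne_zero, by simp⟩⟩

lemma n2' (j : ℕ) : Nice (fun n => S D (R (-2 + j)) n - S D (R (-2)) n) := by
  induction j with
  | zero =>
    refine nice_zero.congr fun n => ?_
    rw [Nat.cast_zero, add_zero, sub_self]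
  | succ j ih =>
    have h := n2 (-2 + (j + 1 : ℕ)) (by push_cast; omega)
    refine (h.add ih).congr fun n => ?_
    have e : (-2 + ((j + 1 : ℕ) : ℤ)) - 1 = -2 + j := by push_cast; ring
    rw [e]
    ring

lemma n3' (j : ℕ) : Nice (fun n => S D' (R (-2)) n - S D' (R (-2 + j)) n - j * S D (R (-2)) n) := by
  induction j with
  | zero =>
    refine nice_zero.congr fun n => ?_
    rw [Nat.cast_zero, add_zero, sub_self, Nat.cast_zero, zero_mul, sub_zero]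
  | succ j ih =>
    have h := n3 (-2 + (j + 1 : ℕ)) (by push_cast; omega)
    have h2 := n2' (j + 1)
    refine ((ih.sub h).add h2).congr fun n => ?_
    have e : (-2 + ((j + 1 : ℕ) : ℤ)) - 1 = -2 + j := by push_cast; ring
    rw [e]
    push_cast
    ring

/-- `E_j` -/
lemma nE (j : ℕ) (hj : 1 ≤ j) : Nice (fun n => (j : ℚ) * S (R j) (R (-2)) n +
    ((j : ℚ) - 1) * S (R (j - 1)) (R (-2)) n + 2 * S D (R (-2)) n) := by
  have h1 := n1 j (-1) (by omega) (by omega)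
  have h2 := n2' (j + 1)
  have h3 := n3' (j + 1)
  have hj1 : ((j : ℚ) + 1) ≠ 0 := by positivity
  refine (((h1.add (h3.smul (-4))).add (h2.smul (-2))).smul (1 / (4 * ((j : ℚ) + 1)))).congr fun n => ?_
  have h4 := rel4 j (-2) n
  have e : (-2 + ((j + 1 : ℕ) : ℤ)) = j - 1 := by push_cast; ring
  have e2 : (-1 - 1 : ℤ) = -2 := by norm_num
  have e3 : (-2 + 1 : ℤ) = -1 := by norm_num
  rw [e, e2]
  rw [e3] at h4
  push_cast at h4 ⊢
  rw [div_mul_eq_mul_div, div_eq_iff (by positivity)]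
  linear_combination -h4

lemma nEven (i : ℕ) : Nice (fun n => S (R (2 * i + 2)) (R (-2)) n) := by
  induction i with
  | zero =>
    have h1 := nE 1 le_rfl
    have h2 := nE 2 (by norm_num)
    refine ((h2.sub h1).smul (1 / 2)).congr fun n => ?_
    push_cast
    ring_nf
  | succ i ih =>
    have h1 := nE (2 * i + 3) (by omega)
    have h2 := nE (2 * i + 4) (by omega)
    have hi : (2 * (i : ℚ) + 4) ≠ 0 := by positivity
    refine (((h2.sub h1).add (ih.smul (2 * i + 2))).smul (1 / (2 * (i : ℚ) + 4))).congr fun n => ?_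
    push_cast
    have e1 : (2 * (i : ℤ) + 4 - 1) = 2 * i + 3 := by ring
    have e2 : (2 * (i : ℤ) + 3 - 1) = 2 * i + 2 := by ring
    have e3 : (2 * ((i : ℤ) + 1) + 2) = 2 * i + 4 := by ring
    rw [e1, e2, e3, div_mul_eq_mul_div, div_eq_iff hi]
    ring

lemma nChain (m : ℤ) (i : ℕ) (hi : (i : ℤ) ≤ m + 2) :
    Nice (fun n => S (R (m - i)) (R (-2 + i)) n - S (R m) (R (-2)) n) := by
  induction i with
  | zero =>
    refine nice_zero.congr fun n => ?_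
    rw [Nat.cast_zero, add_zero, sub_zero, sub_self]
  | succ i ih =>
    have h := n1 (m - i) (-1 + i) (by push_cast at hi; omega) (by omega)
    refine (h.add (ih (by push_cast at hi; omega))).congr fun n => ?_
    have e1 : m - ((i + 1 : ℕ) : ℤ) = m - i - 1 := by push_cast; ring
    have e2 : (-2 : ℤ) + ((i + 1 : ℕ) : ℤ) = -1 + i := by push_cast; ring
    have e3 : (-1 : ℤ) + i - 1 = -2 + i := by ring
    rw [e1, e2, e3]
    ring

theorem main (r : ℕ) : Nice (fun n => S (R r) (R r) n) := by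
  have h1 := nEven r
  have h2 := nChain (2 * r + 2) (r + 2) (by push_cast; omega)
  refine (h1.add h2).congr fun n => ?_
  have e1 : (2 * (r : ℤ) + 2 - ((r + 2 : ℕ) : ℤ)) = r := by push_cast; ring
  have e2 : (-2 + ((r + 2 : ℕ) : ℤ)) = r := by push_cast; ring
  rw [e1, e2]
  ring

end Pool.Agent.Q278.RS
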