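import Mathlib
import Pool.Agent.Q278.RS.Nice

/-! Closed forms of the sums for `R_n`, `W_n`, and their `2`-adic behaviour. -/

set_option autoImplicit false

namespace Pool.Agent.Q278.RS

open Finset

/-- first order relation -/
lemma R_first (s : ℤ) (n : ℕ) : (2 * ((n : ℚ) + 1) - 2 * s - 1) * R s (n + 1) =
    (2 * ((n : ℚ) + 1) + 2 * s + 1) * R s n + D (n + 1) + D n := by
  unfold R D
  rw [← F_ext _ n (n + 2) (by omega), ← F_ext _ n (n + 2) (by omega), ← F_ext _ (n + 1) (n + 2) (by omega),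
    ← F_ext _ (n + 1) (n + 2) (by omega), mul_sum, mul_sum, ← sum_add_distrib, ← sum_add_distrib]
  refine sum_congr rfl fun k _ => ?_
  have hd := one_div_mul_cancel (den_ne k s)
  have h := c_n n k
  linear_combination 2 * (1 / (2 * (k : ℚ) - 2 * s - 1)) * h + (c (n + 1) k + c n k) * hd

/-- `W_n = 3 R_{n,1}` -/
def W (n : ℕ) : ℚ := 3 * R 1 n

lemma R0_0 : R 0 0 = -1 := by simp [R, F, c]
lemma D_0 : D 0 = 1 := by simp [D, F, c]
lemma D_1 : D 1 = 3 := by rw [D_one, D_0]; norm_num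
lemma R0_1 : R 0 1 = 1 := by
  have h := R_first 0 0
  rw [D_one, D_0, R0_0] at h
  push_cast at h
  linarith
lemma W_0 : W 0 = -1 := by
  simp [W, R, F, c]
  norm_num
lemma W_1 : W 1 = -7 := by
  have h := R_first 1 0
  have h0 := W_0
  unfold W at *
  rw [D_one, D_0] at h
  push_cast at h
  linarith

/-- closed form, first sum -/
lemma closed0 (n : ℕ) : 8 * S (R 0) (R 0) (n + 1) = ((n : ℚ) + 1) *
    (((n : ℚ) + 1) * (7 * R 0 (n + 1) ^ 2 - 2 * R 0 (n + 1) * R 0 n - R 0 n ^ 2) -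
      4 * (R 0 (n + 1) + R 0 n) * (R 0 (n + 1) + D (n + 1))) := by
  induction n with
  | zero =>
    unfold S
    rw [sum_range_one, zero_add, R0_0, R0_1, D_1]
    norm_num
  | succ n ih =>
    have hS : S (R 0) (R 0) (n + 1 + 1) = S (R 0) (R 0) (n + 1) +
        (2 * ((n + 1 : ℕ) : ℚ) + 1) * (R 0 (n + 1) * R 0 (n + 1)) := by
      unfold S; rw [sum_range_succ]
    have hA := R_first 0 (n + 1)
    have hB := R_first 0 n
    have hC := D_rec n
    rw [hS, mul_add, ih]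
    have e : n + 1 + 1 = n + 2 := rfl
    rw [e] at *
    generalize R 0 (n + 2) = R2 at *
    generalize R 0 (n + 1) = R1 at *
    generalize R 0 n = R0 at *
    generalize D (n + 2) = D2 at *
    generalize D (n + 1) = D1 at *
    generalize D n = D0 at *
    push_cast at *
    have hn : (0 : ℚ) ≤ n := Nat.cast_nonneg n
    generalize (n : ℚ) = x at *
    have h1 : x + 2 ≠ 0 := by positivity
    have h2 : 2 * x + 3 ≠ 0 := by positivity
    have hD2 : D2 = (2 * x + 3) * R2 - (2 * x + 5) * R1 - D1 := by linear_combination -hA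
    have hD0 : D0 = (2 * x + 1) * R1 - (2 * x + 3) * R0 - D1 := by linear_combination -hB
    have hR2 : R2 = ((x + 2) * (2 * x + 5) * R1 + (x + 2) * D1 + 3 * (2 * x + 3) * D1 -
        (x + 1) * (2 * x + 1) * R1 + (x + 1) * (2 * x + 3) * R0 + (x + 1) * D1) /
        ((x + 2) * (2 * x + 3)) := by
      rw [eq_div_iff (mul_ne_zero h1 h2)]
      rw [hD2, hD0] at hC
      linear_combination hC
    rw [hD2, hR2]
    field_simp
    ring

/-- closed form, second sum -/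
lemma closed1 (n : ℕ) : 8 * (1 - 4 * ((n : ℚ) + 1) ^ 2) ^ 2 * S W W (n + 1) = -(((n : ℚ) + 1) *
    ((-12 + 55 * ((n : ℚ) + 1) - 64 * ((n : ℚ) + 1) ^ 2 + 40 * ((n : ℚ) + 1) ^ 3 +
        48 * ((n : ℚ) + 1) ^ 4 - 40 * ((n : ℚ) + 1) ^ 5) * W (n + 1) ^ 2 +
      (-12 - 2 * ((n : ℚ) + 1) - 16 * ((n : ℚ) + 1) ^ 2 + 112 * ((n : ℚ) + 1) ^ 3 +
        96 * ((n : ℚ) + 1) ^ 4 - 16 * ((n : ℚ) + 1) ^ 5) * (W (n + 1) * W n) +
      (-((n : ℚ) + 1) - 16 * ((n : ℚ) + 1) ^ 2 + 8 * ((n : ℚ) + 1) ^ 3 + 48 * ((n : ℚ) + 1) ^ 4 +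
        24 * ((n : ℚ) + 1) ^ 5) * W n ^ 2 +
      3 * (-4 + 16 * ((n : ℚ) + 1) - 16 * ((n : ℚ) + 1) ^ 2 + 96 * ((n : ℚ) + 1) ^ 3 -
        32 * ((n : ℚ) + 1) ^ 4) * (W (n + 1) * D (n + 1)) +
      3 * (-4 - 16 * ((n : ℚ) + 1) - 16 * ((n : ℚ) + 1) ^ 2 + 96 * ((n : ℚ) + 1) ^ 3 +
        96 * ((n : ℚ) + 1) ^ 4) * (W n * D (n + 1)) +
      288 * ((n : ℚ) + 1) ^ 3 * D (n + 1) ^ 2)) := by
  induction n with
  | zero =>
    unfold S
    rw [sum_range_one, zero_add, W_0, W_1, D_1]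
    norm_num
  | succ n ih =>
    have hS : S W W (n + 1 + 1) = S W W (n + 1) +
        (2 * ((n + 1 : ℕ) : ℚ) + 1) * (W (n + 1) * W (n + 1)) := by
      unfold S; rw [sum_range_succ]
    have hA := R_first 1 (n + 1)
    have hB := R_first 1 n
    have hC := D_rec n
    rw [hS]
    have e : n + 1 + 1 = n + 2 := rfl
    rw [e] at *
    have w2 : R 1 (n + 2) = W (n + 2) / 3 := by unfold W; ring
    have w1 : R 1 (n + 1) = W (n + 1) / 3 := by unfold W; ring
    have w0 : R 1 n = W n / 3 := by unfold W; ring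
    rw [w2, w1] at hA
    rw [w1, w0] at hB
    generalize W (n + 2) = R2 at *
    generalize W (n + 1) = R1 at *
    generalize W n = R0 at *
    generalize D (n + 2) = D2 at *
    generalize D (n + 1) = D1 at *
    generalize D n = D0 at *
    generalize S W W (n + 1) = T at *
    push_cast at *
    have hn : (0 : ℚ) ≤ n := Nat.cast_nonneg n
    generalize (n : ℚ) = x at *
    have h1 : x + 2 ≠ 0 := by positivity
    have h2 : 2 * x + 3 ≠ 0 := by positivity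
    have h3 : 2 * x + 1 ≠ 0 := by positivity
    have hD2 : D2 = ((2 * x + 1) * R2 - (2 * x + 7) * R1) / 3 - D1 := by linear_combination -hA
    have hD0 : D0 = ((2 * x - 1) * R1 - (2 * x + 5) * R0) / 3 - D1 := by linear_combination -hB
    have hR2 : R2 = ((x + 2) * (2 * x + 7) * R1 + 3 * (x + 2) * D1 + 9 * (2 * x + 3) * D1 -
        (x + 1) * (2 * x - 1) * R1 + (x + 1) * (2 * x + 5) * R0 + 3 * (x + 1) * D1) /
        ((x + 2) * (2 * x + 1)) := by
      rw [eq_div_iff (mul_ne_zero h1 h3)]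
      rw [hD2, hD0] at hC
      linear_combination 3 * hC
    have hfac : (1 - 4 * (x + 1) ^ 2) ^ 2 = ((2 * x + 1) * (2 * x + 3)) ^ 2 := by ring
    rw [hfac] at ih
    have hT : T = -((x + 1) *
      ((-12 + 55 * (x + 1) - 64 * (x + 1) ^ 2 + 40 * (x + 1) ^ 3 +
        48 * (x + 1) ^ 4 - 40 * (x + 1) ^ 5) * R1 ^ 2 +
      (-12 - 2 * (x + 1) - 16 * (x + 1) ^ 2 + 112 * (x + 1) ^ 3 +
        96 * (x + 1) ^ 4 - 16 * (x + 1) ^ 5) * (R1 * R0) +
      (-(x + 1) - 16 * (x + 1) ^ 2 + 8 * (x + 1) ^ 3 + 48 * (x + 1) ^ 4 +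
        24 * (x + 1) ^ 5) * R0 ^ 2 +
      3 * (-4 + 16 * (x + 1) - 16 * (x + 1) ^ 2 + 96 * (x + 1) ^ 3 -
        32 * (x + 1) ^ 4) * (R1 * D1) +
      3 * (-4 - 16 * (x + 1) - 16 * (x + 1) ^ 2 + 96 * (x + 1) ^ 3 +
        96 * (x + 1) ^ 4) * (R0 * D1) +
      288 * (x + 1) ^ 3 * D1 ^ 2)) / (8 * ((2 * x + 1) * (2 * x + 3)) ^ 2) := by
      rw [eq_div_iff (by positivity)]
      linear_combination ih
    rw [hT, hD2, hR2]
    field_simp
    ring

end Pool.Agent.Q278.RS
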