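import Mathlib
import Pool.Agent.Q278.RS.Two

/-! The `2`-adic periodicity. -/

set_option autoImplicit false

namespace Pool.Agent.Q278.RS

open Finset

lemma W_int (n : ℕ) : ∃ u : ℤ, W n = u := by
  have key : ∀ k : ℕ, ∃ u : ℤ, (Nat.choose (2 * k) k : ℚ) * (1 / (2 * (k : ℚ) - 1)) = u := by
    intro k
    rcases Nat.eq_zero_or_pos k with rfl | h
    · exact ⟨-1, by norm_num⟩
    · obtain ⟨m, rfl⟩ : ∃ m, k = m + 1 := ⟨k - 1, by omega⟩
      refine ⟨2 * (catalan m : ℤ), ?_⟩
      have h1 := cb_succ m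
      have h2 := congrArg (Nat.cast : ℕ → ℚ) (succ_mul_catalan_eq_centralBinom m)
      unfold Nat.centralBinom at h2
      push_cast at h2 ⊢
      have h3 : ((m : ℚ) + 1) ≠ 0 := by positivity
      have h4 : (2 * ((m : ℚ) + 1) - 1) ≠ 0 := by
        have : (2 * ((m : ℚ) + 1) - 1) = 2 * m + 1 := by ring
        rw [this]; positivity
      apply mul_left_cancel₀ h3
      rw [mul_one_div, mul_div_assoc', div_eq_iff h4]
      linear_combination h1 - 2 * (2 * (m : ℚ) + 1) * h2
  have h := int_sum (fun k => 3 / (2 * (k : ℚ) - 3)) ?_ n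
  · obtain ⟨u, hu⟩ := h
    refine ⟨u, ?_⟩
    rw [← hu]
    unfold W R
    rw [← F_smul]
    congr 1
    funext k
    push_cast
    rw [mul_one_div]
    congr 1
    ring
  · intro k
    rcases Nat.eq_zero_or_pos k with rfl | h
    · exact ⟨-1, by norm_num⟩
    · obtain ⟨m, rfl⟩ : ∃ m, k = m + 1 := ⟨k - 1, by omega⟩
      obtain ⟨a, ha⟩ := key (m + 1)
      obtain ⟨b, hb⟩ := key m
      refine ⟨a + 8 * b, ?_⟩
      rw [Int.cast_add, Int.cast_mul, ← ha, ← hb]
      have h1 := cb_succ m
      have h3 : ((m : ℚ) + 1) ≠ 0 := by positivity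
      have h4 : (2 * ((m : ℚ) + 1) - 1) ≠ 0 := by
        have : (2 * ((m : ℚ) + 1) - 1) = 2 * m + 1 := by ring
        rw [this]; positivity
      have h5 : (2 * (m : ℚ) - 1) ≠ 0 := by
        have := den_ne m 0
        push_cast at this
        intro h
        apply this
        linarith
      have h6 : (2 * ((m : ℚ) + 1) - 3) = 2 * m - 1 := by ring
      push_cast
      rw [h6]
      have h7 : (2 * ((m : ℚ) + 1) - 1) = 2 * m + 1 := by ring
      rw [h7] at h4 ⊢
      have hx : (Nat.choose (2 * (m + 1)) (m + 1) : ℚ) =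
          2 * (2 * m + 1) * (Nat.choose (2 * m) m : ℚ) / (m + 1) := by
        rw [eq_div_iff h3]; linear_combination h1
      rw [hx]
      field_simp
      ring

/-- Delannoy numbers by powers of two -/
lemma D_two (n : ℕ) : ∑ k ∈ range (n + 1), Nat.choose (n + k) (2 * k) * Nat.choose (2 * k) k =
    ∑ k ∈ range (n + 1), Nat.choose n k ^ 2 * 2 ^ k := by
  have h1 : ∀ k ∈ range (n + 1), Nat.choose (n + k) (2 * k) * Nat.choose (2 * k) k =
      ∑ i ∈ range (n + 1), Nat.choose n i ^ 2 * (if i ≤ k then Nat.choose (n - i) (k - i) else 0) := by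
    intro k hk
    rw [mem_range, Nat.lt_succ_iff] at hk
    rw [Nat.choose_mul (n := n + k) (k := 2 * k) (s := k) (by omega)]
    have e1 : n + k - k = n := by omega
    have e2 : 2 * k - k = k := by omega
    rw [e1, e2, Nat.add_choose_eq, Finset.Nat.sum_antidiagonal_eq_sum_range_succ
      (fun i j => n.choose i * k.choose j) k, Finset.sum_mul]
    have e3 : ∑ i ∈ range (n + 1), Nat.choose n i ^ 2 *
        (if i ≤ k then Nat.choose (n - i) (k - i) else 0) =
        ∑ i ∈ range (k + 1), Nat.choose n i ^ 2 *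
        (if i ≤ k then Nat.choose (n - i) (k - i) else 0) := by
      symm
      apply sum_subset
      · intro i hi
        rw [mem_range] at *
        omega
      · intro i _ hi
        rw [mem_range] at hi
        rw [if_neg (by omega), mul_zero]
    rw [e3]
    refine sum_congr rfl fun i hi => ?_
    rw [mem_range, Nat.lt_succ_iff] at hi
    rw [if_pos hi, Nat.choose_symm hi]
    have h2 := Nat.choose_mul (n := n) (k := k) (s := i) hi
    calc n.choose i * k.choose i * n.choose k = n.choose i * (n.choose k * k.choose i) := by ring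
      _ = n.choose i * (n.choose i * (n - i).choose (k - i)) := by rw [h2]
      _ = _ := by ring
  rw [sum_congr rfl h1, sum_comm]
  have h2 : ∀ i ∈ range (n + 1), ∑ k ∈ range (n + 1), Nat.choose n i ^ 2 *
      (if i ≤ k then Nat.choose (n - i) (k - i) else 0) = Nat.choose n i ^ 2 * 2 ^ (n - i) := by
    intro i hi
    rw [mem_range, Nat.lt_succ_iff] at hi
    rw [← mul_sum]
    congr 1
    obtain ⟨m, rfl⟩ : ∃ m, n = i + m := ⟨n - i, by omega⟩
    rw [show i + m + 1 = i + (m + 1) by ring, sum_range_add]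
    have e1 : ∑ x ∈ range i, (if i ≤ x then Nat.choose (i + m - i) (x - i) else 0) = 0 := by
      apply sum_eq_zero
      intro x hx
      rw [mem_range] at hx
      rw [if_neg (by omega)]
    rw [e1, zero_add, Nat.add_sub_cancel_left, ← Nat.sum_range_choose m]
    refine sum_congr rfl fun x _ => ?_
    rw [if_pos (by omega), Nat.add_sub_cancel_left]
  rw [sum_congr rfl h2, ← Finset.sum_range_reflect]
  refine sum_congr rfl fun i hi => ?_
  rw [mem_range, Nat.lt_succ_iff] at hi
  have e1 : n + 1 - 1 - i = n - i := by omega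
  rw [e1, Nat.choose_symm hi]
  congr 2
  omega

lemma D_eq (n : ℕ) : D n = ((∑ k ∈ range (n + 1), Nat.choose n k ^ 2 * 2 ^ k : ℕ) : ℚ) := by
  rw [← D_two]
  unfold D F c
  push_cast
  exact sum_congr rfl fun k _ => by ring

lemma D_mod (n : ℕ) : ((∑ k ∈ range (n + 1), Nat.choose n k ^ 2 * 2 ^ k : ℕ) : ZMod 128) =
    1 + 2 * (Nat.choose n 1 : ZMod 128) ^ 2 + 4 * (Nat.choose n 2 : ZMod 128) ^ 2 +
      8 * (Nat.choose n 3 : ZMod 128) ^ 2 + 16 * (Nat.choose n 4 : ZMod 128) ^ 2 +
      32 * (Nat.choose n 5 : ZMod 128) ^ 2 + 64 * (Nat.choose n 6 : ZMod 128) ^ 2 := by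
  have h1 : ∑ k ∈ range (n + 1), Nat.choose n k ^ 2 * 2 ^ k =
      ∑ k ∈ range (7 + (n + 1)), Nat.choose n k ^ 2 * 2 ^ k := by
    apply sum_subset
    · intro k hk
      rw [mem_range] at *
      omega
    · intro k _ hk
      rw [mem_range] at hk
      rw [Nat.choose_eq_zero_of_lt (by omega)]; simp
  rw [h1, sum_range_add]
  push_cast
  have h2 : ∑ x ∈ range (n + 1), (Nat.choose n (7 + x) : ZMod 128) ^ 2 * 2 ^ (7 + x) = 0 := by
    apply sum_eq_zero
    intro x _
    have : (2 : ZMod 128) ^ (7 + x) = 0 := by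
      rw [pow_add]
      have : (2 : ZMod 128) ^ 7 = 0 := by decide
      rw [this, zero_mul]
    rw [this, mul_zero]
  rw [h2, add_zero]
  simp only [sum_range_succ, sum_range_zero, Nat.choose_zero_right]
  push_cast
  ring

end Pool.Agent.Q278.RS
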