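import Mathlib
import Pool.Agent.Q278.RS.Mac

/-! The finite check modulo `128`. -/

set_option autoImplicit false

namespace Pool.Agent.Q278.RS

open Finset

/-- `f A`, with `A` evaluated first. -/
def force {α : Type} (A : ℕ) (f : ℕ → α) : α := Nat.casesOn A (f 0) (fun A' => f (A' + 1))

lemma force_eq {α : Type} (A : ℕ) (f : ℕ → α) : force A f = f A := by cases A <;> rfl

/-- first condition -/
def P1 (n r' r d : ℕ) : ℕ :=
  n * (7 * r' ^ 2 + 126 * r' * r + 127 * r ^ 2) + 124 * (r' + r) * (r' + d) + 120 * n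

/-- second condition (doubled) -/
def P2 (n w' w d : ℕ) : ℕ :=
  2 * ((52 + 55 * n + 40 * n ^ 3 + 48 * n ^ 4 + 24 * n ^ 5) * w' ^ 2 +
    (52 + 62 * n + 48 * n ^ 2 + 48 * n ^ 3 + 32 * n ^ 4 + 48 * n ^ 5) * w' * w +
    (63 * n + 48 * n ^ 2 + 8 * n ^ 3 + 48 * n ^ 4 + 24 * n ^ 5) * w ^ 2 +
    3 * (60 + 16 * n + 48 * n ^ 2 + 32 * n ^ 3 + 32 * n ^ 4) * w' * d +
    3 * (60 + 48 * n + 48 * n ^ 2 + 32 * n ^ 3 + 32 * n ^ 4) * w * d +
    288 * n ^ 3 * d ^ 2 + 8 * n)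

/-- the check -/
def chk : ℕ → ℕ → ℕ → ℕ → ℕ → ℕ → ℕ → ℕ → ℕ → ℕ → ℕ → Bool
  | 0, v1, v2, v3, v4, v5, v6, n, r, w, d =>
    Nat.beq v1 0 && Nat.beq v2 0 && Nat.beq v3 0 && Nat.beq v4 0 && Nat.beq v5 0 && Nat.beq v6 0 &&
      Nat.beq n 0 && Nat.beq r 127 && Nat.beq w 127 && Nat.beq d 1
  | k + 1, v1, v2, v3, v4, v5, v6, n, r, w, d =>
    force ((v1 + 1) % 128) fun u1 => force ((v2 + v1) % 128) fun u2 => force ((v3 + v2) % 128) fun u3 =>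
    force ((v4 + v3) % 128) fun u4 => force ((v5 + v4) % 128) fun u5 => force ((v6 + v5) % 128) fun u6 =>
    force ((1 + 2 * u1 ^ 2 + 4 * u2 ^ 2 + 8 * u3 ^ 2 + 16 * u4 ^ 2 + 32 * u5 ^ 2 + 64 * u6 ^ 2) % 128)
      fun e =>
    force ((2 * n + 1) ^ 31 * ((2 * n + 3) * r + e + d) % 128) fun r' =>
    force ((2 * n + 127) ^ 31 * ((2 * n + 5) * w + 3 * (e + d)) % 128) fun w' =>
    force ((n + 1) % 128) fun n' =>
    (Nat.beq (P1 n' r' r e % 128) 0 && Nat.beq (P2 n' w' w e % 128) 0) &&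
      chk k u1 u2 u3 u4 u5 u6 n' r' w' e

lemma chk_true : chk 512 0 0 0 0 0 0 0 127 127 1 = true := by decide +kernel

variable (Rz Wz Dz : ℕ → ℤ)

/-- the state describes the sequences at `N` -/
structure St (N v1 v2 v3 v4 v5 v6 n r w d : ℕ) : Prop where
  h1 : (v1 : ZMod 128) = (Nat.choose N 1 : ℕ)
  h2 : (v2 : ZMod 128) = (Nat.choose N 2 : ℕ)
  h3 : (v3 : ZMod 128) = (Nat.choose N 3 : ℕ)
  h4 : (v4 : ZMod 128) = (Nat.choose N 4 : ℕ)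
  h5 : (v5 : ZMod 128) = (Nat.choose N 5 : ℕ)
  h6 : (v6 : ZMod 128) = (Nat.choose N 6 : ℕ)
  hn : (n : ZMod 128) = (N : ℕ)
  hr : (r : ZMod 128) = (Rz N : ℤ)
  hw : (w : ZMod 128) = (Wz N : ℤ)
  hd : (d : ZMod 128) = (Dz N : ℤ)

/-- the property wanted at `N + 1` -/
def Good (N : ℕ) : Prop :=
  (((N : ℤ) + 1) * (7 * Rz (N + 1) ^ 2 + 126 * Rz (N + 1) * Rz N + 127 * Rz N ^ 2) +
    124 * (Rz (N + 1) + Rz N) * (Rz (N + 1) + Dz (N + 1)) + 120 * ((N : ℤ) + 1) : ZMod 128) = 0 ∧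
  (2 * ((52 + 55 * ((N : ℤ) + 1) + 40 * ((N : ℤ) + 1) ^ 3 + 48 * ((N : ℤ) + 1) ^ 4 +
      24 * ((N : ℤ) + 1) ^ 5) * Wz (N + 1) ^ 2 +
    (52 + 62 * ((N : ℤ) + 1) + 48 * ((N : ℤ) + 1) ^ 2 + 48 * ((N : ℤ) + 1) ^ 3 +
      32 * ((N : ℤ) + 1) ^ 4 + 48 * ((N : ℤ) + 1) ^ 5) * Wz (N + 1) * Wz N +
    (63 * ((N : ℤ) + 1) + 48 * ((N : ℤ) + 1) ^ 2 + 8 * ((N : ℤ) + 1) ^ 3 + 48 * ((N : ℤ) + 1) ^ 4 +
      24 * ((N : ℤ) + 1) ^ 5) * Wz N ^ 2 +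
    3 * (60 + 16 * ((N : ℤ) + 1) + 48 * ((N : ℤ) + 1) ^ 2 + 32 * ((N : ℤ) + 1) ^ 3 +
      32 * ((N : ℤ) + 1) ^ 4) * Wz (N + 1) * Dz (N + 1) +
    3 * (60 + 48 * ((N : ℤ) + 1) + 48 * ((N : ℤ) + 1) ^ 2 + 32 * ((N : ℤ) + 1) ^ 3 +
      32 * ((N : ℤ) + 1) ^ 4) * Wz N * Dz (N + 1) +
    288 * ((N : ℤ) + 1) ^ 3 * Dz (N + 1) ^ 2 + 8 * ((N : ℤ) + 1)) : ZMod 128) = 0

lemma odd_pow (x : ZMod 128) (h : ∃ y : ZMod 128, x = 2 * y + 1) : x ^ 31 * x = 1 := by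
  obtain ⟨y, rfl⟩ := h
  revert y
  decide +kernel

lemma step (hD : ∀ n, (Dz n : ZMod 128) =
      1 + 2 * (Nat.choose n 1 : ZMod 128) ^ 2 + 4 * (Nat.choose n 2 : ZMod 128) ^ 2 +
      8 * (Nat.choose n 3 : ZMod 128) ^ 2 + 16 * (Nat.choose n 4 : ZMod 128) ^ 2 +
      32 * (Nat.choose n 5 : ZMod 128) ^ 2 + 64 * (Nat.choose n 6 : ZMod 128) ^ 2)
    (hR : ∀ n : ℕ, (2 * (n : ℤ) + 1) * Rz (n + 1) = (2 * n + 3) * Rz n + Dz (n + 1) + Dz n)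
    (hW : ∀ n : ℕ, (2 * (n : ℤ) - 1) * Wz (n + 1) = (2 * n + 5) * Wz n + 3 * (Dz (n + 1) + Dz n))
    (k : ℕ) : ∀ (N v1 v2 v3 v4 v5 v6 n r w d : ℕ), chk k v1 v2 v3 v4 v5 v6 n r w d = true →
    St Rz Wz Dz N v1 v2 v3 v4 v5 v6 n r w d →
    (∀ i < k, Good Rz Wz Dz (N + i)) ∧ St Rz Wz Dz (N + k) 0 0 0 0 0 0 0 127 127 1 := by
  induction k with
  | zero =>
    intro N v1 v2 v3 v4 v5 v6 n r w d hc hs
    refine ⟨fun i hi => absurd hi (Nat.not_lt_zero i), ?_⟩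
    simp only [chk, Bool.and_eq_true, Nat.beq_eq] at hc
    obtain ⟨⟨⟨⟨⟨⟨⟨⟨⟨rfl, rfl⟩, rfl⟩, rfl⟩, rfl⟩, rfl⟩, rfl⟩, rfl⟩, rfl⟩, rfl⟩ := hc
    exact hs
  | succ k ih =>
    intro N v1 v2 v3 v4 v5 v6 n r w d hc hs
    simp only [chk, force_eq, Bool.and_eq_true, Nat.beq_eq] at hc
    obtain ⟨⟨hp1, hp2⟩, hc'⟩ := hc
    set u1 := (v1 + 1) % 128
    set u2 := (v2 + v1) % 128
    set u3 := (v3 + v2) % 128
    set u4 := (v4 + v3) % 128
    set u5 := (v5 + v4) % 128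
    set u6 := (v6 + v5) % 128
    set e := (1 + 2 * u1 ^ 2 + 4 * u2 ^ 2 + 8 * u3 ^ 2 + 16 * u4 ^ 2 + 32 * u5 ^ 2 + 64 * u6 ^ 2) % 128
    set r' := (2 * n + 1) ^ 31 * ((2 * n + 3) * r + e + d) % 128
    set w' := (2 * n + 127) ^ 31 * ((2 * n + 5) * w + 3 * (e + d)) % 128
    set n' := (n + 1) % 128
    have pas : ∀ j, (Nat.choose (N + 1) (j + 1) : ZMod 128) = Nat.choose N j + Nat.choose N (j + 1) := by
      intro j
      rw [Nat.choose_succ_succ]; push_cast; rfl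
    have k1 : (u1 : ZMod 128) = (Nat.choose (N + 1) 1 : ℕ) := by
      simp only [u1, ZMod.natCast_mod]
      rw [pas 0]; push_cast; rw [hs.h1]; simp; ring
    have k2 : (u2 : ZMod 128) = (Nat.choose (N + 1) 2 : ℕ) := by
      simp only [u2, ZMod.natCast_mod]
      rw [pas 1]; push_cast; rw [hs.h1, hs.h2]; ring
    have k3 : (u3 : ZMod 128) = (Nat.choose (N + 1) 3 : ℕ) := by
      simp only [u3, ZMod.natCast_mod]
      rw [pas 2]; push_cast; rw [hs.h2, hs.h3]; ring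
    have k4 : (u4 : ZMod 128) = (Nat.choose (N + 1) 4 : ℕ) := by
      simp only [u4, ZMod.natCast_mod]
      rw [pas 3]; push_cast; rw [hs.h3, hs.h4]; ring
    have k5 : (u5 : ZMod 128) = (Nat.choose (N + 1) 5 : ℕ) := by
      simp only [u5, ZMod.natCast_mod]
      rw [pas 4]; push_cast; rw [hs.h4, hs.h5]; ring
    have k6 : (u6 : ZMod 128) = (Nat.choose (N + 1) 6 : ℕ) := by
      simp only [u6, ZMod.natCast_mod]
      rw [pas 5]; push_cast; rw [hs.h5, hs.h6]; ring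
    have ke : (e : ZMod 128) = (Dz (N + 1) : ℤ) := by
      rw [hD, ← k1, ← k2, ← k3, ← k4, ← k5, ← k6]
      simp only [e, ZMod.natCast_mod]
      push_cast; rfl
    have kn : (n' : ZMod 128) = (N : ZMod 128) + 1 := by
      simp only [n', ZMod.natCast_mod]
      push_cast; rw [hs.hn]
    have kn' : (n' : ZMod 128) = ((N + 1 : ℕ) : ZMod 128) := by
      rw [kn]; push_cast; rfl
    have kr : (r' : ZMod 128) = (Rz (N + 1) : ℤ) := by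
      simp only [r', ZMod.natCast_mod]
      push_cast
      rw [hs.hr, hs.hd, hs.hn, ke]
      have h1 := congrArg (Int.cast : ℤ → ZMod 128) (hR N)
      push_cast at h1
      have h2 := odd_pow (2 * (N : ZMod 128) + 1) ⟨N, rfl⟩
      linear_combination -(2 * (N : ZMod 128) + 1) ^ 31 * h1 + (Rz (N + 1) : ZMod 128) * h2
    have kw : (w' : ZMod 128) = (Wz (N + 1) : ℤ) := by
      simp only [w', ZMod.natCast_mod]
      push_cast
      rw [hs.hw, hs.hd, hs.hn, ke]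
      have h1 := congrArg (Int.cast : ℤ → ZMod 128) (hW N)
      push_cast at h1
      have h127 : (127 : ZMod 128) = -1 := by decide
      have h2 := odd_pow (2 * (N : ZMod 128) - 1) ⟨N - 1, by ring⟩
      rw [h127, ← sub_eq_add_neg]
      linear_combination -(2 * (N : ZMod 128) - 1) ^ 31 * h1 + (Wz (N + 1) : ZMod 128) * h2
    have hst : St Rz Wz Dz (N + 1) u1 u2 u3 u4 u5 u6 n' r' w' e :=
      ⟨k1, k2, k3, k4, k5, k6, kn', kr, kw, ke⟩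
    obtain ⟨g1, g2⟩ := ih (N + 1) _ _ _ _ _ _ _ _ _ _ hc' hst
    refine ⟨fun i hi => ?_, by rwa [show N + (k + 1) = N + 1 + k by ring]⟩
    rcases Nat.eq_zero_or_pos i with rfl | hpos
    · have q1 : ((P1 n' r' r e : ℕ) : ZMod 128) = 0 := by
        rw [← ZMod.natCast_mod, hp1]; rfl
      have q2 : ((P2 n' w' w e : ℕ) : ZMod 128) = 0 := by
        rw [← ZMod.natCast_mod, hp2]; rfl
      unfold P1 at q1
      unfold P2 at q2
      push_cast at q1 q2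
      rw [kr, ke, hs.hr, kn] at q1
      rw [kw, ke, hs.hw, kn] at q2
      refine ⟨?_, ?_⟩
      · rw [Nat.add_zero]
        push_cast
        exact q1
      · rw [Nat.add_zero]
        push_cast
        exact q2
    · have := g1 (i - 1) (by omega)
      rwa [show N + 1 + (i - 1) = N + i by omega] at this

end Pool.Agent.Q278.RS
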