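import Mathlib
import Pool.Agent.Q278.RS.Fin2

/-! The congruences modulo `16 n` and `8 n`. -/

set_option autoImplicit false

namespace Pool.Agent.Q278.RS

open Finset

lemma seqs : ∃ Rz Wz Dz : ℕ → ℤ, (∀ n, R 0 n = Rz n) ∧ (∀ n, W n = Wz n) ∧ (∀ n, D n = Dz n) ∧
    (∀ N, Good Rz Wz Dz N) := by
  choose Rz hRz using R0_int
  choose Wz hWz using W_int
  set Dz : ℕ → ℤ := fun n => ((∑ k ∈ range (n + 1), Nat.choose n k ^ 2 * 2 ^ k : ℕ) : ℤ) with hDz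
  have hDq : ∀ n, D n = (Dz n : ℚ) := by
    intro n
    rw [D_eq, hDz]
    push_cast
    rfl
  refine ⟨Rz, Wz, Dz, hRz, hWz, hDq, ?_⟩
  have hD : ∀ n, (Dz n : ZMod 128) =
      1 + 2 * (Nat.choose n 1 : ZMod 128) ^ 2 + 4 * (Nat.choose n 2 : ZMod 128) ^ 2 +
      8 * (Nat.choose n 3 : ZMod 128) ^ 2 + 16 * (Nat.choose n 4 : ZMod 128) ^ 2 +
      32 * (Nat.choose n 5 : ZMod 128) ^ 2 + 64 * (Nat.choose n 6 : ZMod 128) ^ 2 := by
    intro n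
    rw [← D_mod, hDz]
    push_cast
    rfl
  have hR : ∀ n : ℕ, (2 * (n : ℤ) + 1) * Rz (n + 1) = (2 * n + 3) * Rz n + Dz (n + 1) + Dz n := by
    intro n
    have h := R_first 0 n
    rw [hRz, hRz, hDq, hDq] at h
    have h2 : ((2 * (n : ℚ) + 1) * Rz (n + 1) = (2 * n + 3) * Rz n + Dz (n + 1) + Dz n) := by
      push_cast at h
      linear_combination h
    exact_mod_cast h2
  have hW : ∀ n : ℕ, (2 * (n : ℤ) - 1) * Wz (n + 1) = (2 * n + 5) * Wz n + 3 * (Dz (n + 1) + Dz n) := by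
    intro n
    have h := R_first 1 n
    have a := hWz n
    have b := hWz (n + 1)
    unfold W at a b
    rw [hDq, hDq] at h
    have h2 : ((2 * (n : ℚ) - 1) * Wz (n + 1) = (2 * n + 5) * Wz n + 3 * (Dz (n + 1) + Dz n)) := by
      rw [← a, ← b]
      push_cast at h
      linear_combination 3 * h
    exact_mod_cast h2
  have h0 : St Rz Wz Dz 0 0 0 0 0 0 0 0 127 127 1 := by
    have r0 : Rz 0 = -1 := by
      have := hRz 0
      rw [R0_0] at this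
      exact_mod_cast this.symm
    have w0 : Wz 0 = -1 := by
      have := hWz 0
      rw [W_0] at this
      exact_mod_cast this.symm
    have d0 : Dz 0 = 1 := by
      have := hDq 0
      rw [D_0] at this
      exact_mod_cast this.symm
    refine ⟨?_, ?_, ?_, ?_, ?_, ?_, ?_, ?_, ?_, ?_⟩
    · simp
    · simp
    · simp
    · simp
    · simp
    · simp
    · simp
    · rw [r0]; decide
    · rw [w0]; decide
    · rw [d0]; decide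
  have hq : ∀ q : ℕ, St Rz Wz Dz (512 * q) 0 0 0 0 0 0 0 127 127 1 := by
    intro q
    induction q with
    | zero => exact h0
    | succ q ih =>
      exact (step Rz Wz Dz hD hR hW 512 (512 * q) _ _ _ _ _ _ _ _ _ _ chk_true ih).2
  intro N
  have h := (step Rz Wz Dz hD hR hW 512 (512 * (N / 512)) _ _ _ _ _ _ _ _ _ _ chk_true
    (hq (N / 512))).1 (N % 512) (Nat.mod_lt _ (by norm_num))
  rwa [Nat.div_add_mod] at h

/-- first congruence -/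
theorem first (n : ℕ) (hn : 1 ≤ n) : ∃ t : ℤ, S (R 0) (R 0) n - (n : ℚ) ^ 2 = 16 * n * t := by
  obtain ⟨N, rfl⟩ : ∃ N, n = N + 1 := ⟨n - 1, by omega⟩
  obtain ⟨Rz, Wz, Dz, hR, hW, hD, hG⟩ := seqs
  obtain ⟨g1, -⟩ := hG N
  have h := closed0 N
  rw [hR, hR, hD] at h
  generalize Rz (N + 1) = a at *
  generalize Rz N = b at *
  generalize Dz (N + 1) = d at *
  have g2 : ((((N : ℤ) + 1) * (7 * a ^ 2 + 126 * a * b + 127 * b ^ 2) +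
    124 * (a + b) * (a + d) + 120 * ((N : ℤ) + 1) : ℤ) : ZMod 128) = 0 := by
    rw [← g1]; push_cast; ring
  rw [ZMod.intCast_zmod_eq_zero_iff_dvd] at g2
  obtain ⟨t, ht⟩ := g2
  have ht' := congrArg (Int.cast : ℤ → ℚ) ht
  push_cast at ht'
  refine ⟨t - ((N : ℤ) + 1) * (a * b + b ^ 2) - (a + b) * (a + d) - (N + 1), ?_⟩
  push_cast
  linear_combination (1 / 8) * h + ((N : ℚ) + 1) / 8 * ht'

/-- second congruence -/
theorem second (n : ℕ) (hn : 1 ≤ n) : ∃ t : ℤ, S W W n - (n : ℚ) ^ 2 = 8 * n * t := by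
  obtain ⟨N, rfl⟩ : ∃ N, n = N + 1 := ⟨n - 1, by omega⟩
  obtain ⟨Rz, Wz, Dz, hR, hW, hD, hG⟩ := seqs
  obtain ⟨-, g1⟩ := hG N
  have h := closed1 N
  rw [hW, hW, hD] at h
  have hS : S W W (N + 1) = ((∑ k ∈ range (N + 1), (2 * (k : ℤ) + 1) * (Wz k * Wz k) : ℤ) : ℚ) := by
    unfold S
    push_cast
    refine sum_congr rfl fun k _ => ?_
    rw [hW]
  rw [hS] at h ⊢
  generalize (∑ k ∈ range (N + 1), (2 * (k : ℤ) + 1) * (Wz k * Wz k) : ℤ) = T at *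
  generalize Wz (N + 1) = a at *
  generalize Wz N = b at *
  generalize Dz (N + 1) = d at *
  obtain ⟨m, hm⟩ : ∃ m : ℤ, m = (N : ℤ) + 1 := ⟨_, rfl⟩
  have hmq : (N : ℚ) + 1 = (m : ℚ) := by rw [hm]; push_cast; rfl
  have hmz : ((N : ℤ) + 1 : ZMod 128) = (m : ZMod 128) := by rw [hm]; push_cast; rfl
  rw [hmz] at g1
  rw [hmq] at h
  have hc : ((N + 1 : ℕ) : ℚ) = (m : ℚ) := by rw [← hmq]; push_cast; rfl
  rw [hc]
  have hm0 : m ≠ 0 := by omega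
  clear hmz hmq hc hR hW hD hG hS
  clear Rz Wz Dz
  have h' : 8 * (1 - 4 * m ^ 2) ^ 2 * T = -(m *
    ((-12 + 55 * m - 64 * m ^ 2 + 40 * m ^ 3 + 48 * m ^ 4 - 40 * m ^ 5) * a ^ 2 +
      (-12 - 2 * m - 16 * m ^ 2 + 112 * m ^ 3 + 96 * m ^ 4 - 16 * m ^ 5) * (a * b) +
      (-m - 16 * m ^ 2 + 8 * m ^ 3 + 48 * m ^ 4 + 24 * m ^ 5) * b ^ 2 +
      3 * (-4 + 16 * m - 16 * m ^ 2 + 96 * m ^ 3 - 32 * m ^ 4) * (a * d) +
      3 * (-4 - 16 * m - 16 * m ^ 2 + 96 * m ^ 3 + 96 * m ^ 4) * (b * d) +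
      288 * m ^ 3 * d ^ 2)) := by
    exact_mod_cast h
  have g2 : ((2 * ((52 + 55 * m + 40 * m ^ 3 + 48 * m ^ 4 + 24 * m ^ 5) * a ^ 2 +
    (52 + 62 * m + 48 * m ^ 2 + 48 * m ^ 3 + 32 * m ^ 4 + 48 * m ^ 5) * a * b +
    (63 * m + 48 * m ^ 2 + 8 * m ^ 3 + 48 * m ^ 4 + 24 * m ^ 5) * b ^ 2 +
    3 * (60 + 16 * m + 48 * m ^ 2 + 32 * m ^ 3 + 32 * m ^ 4) * a * d +
    3 * (60 + 48 * m + 48 * m ^ 2 + 32 * m ^ 3 + 32 * m ^ 4) * b * d +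
    288 * m ^ 3 * d ^ 2 + 8 * m) : ℤ) : ZMod 128) = 0 := by
    rw [← g1]; push_cast; ring
  rw [ZMod.intCast_zmod_eq_zero_iff_dvd] at g2
  obtain ⟨t, ht⟩ := g2
  push_cast at ht
  -- the quantity Q + 8m is divisible by 64
  obtain ⟨s, hs⟩ : ∃ s : ℤ, ((-12 + 55 * m - 64 * m ^ 2 + 40 * m ^ 3 + 48 * m ^ 4 - 40 * m ^ 5) * a ^ 2 +
      (-12 - 2 * m - 16 * m ^ 2 + 112 * m ^ 3 + 96 * m ^ 4 - 16 * m ^ 5) * (a * b) +
      (-m - 16 * m ^ 2 + 8 * m ^ 3 + 48 * m ^ 4 + 24 * m ^ 5) * b ^ 2 +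
      3 * (-4 + 16 * m - 16 * m ^ 2 + 96 * m ^ 3 - 32 * m ^ 4) * (a * d) +
      3 * (-4 - 16 * m - 16 * m ^ 2 + 96 * m ^ 3 + 96 * m ^ 4) * (b * d) +
      288 * m ^ 3 * d ^ 2) + 8 * m = 64 * s := by
    refine ⟨t - (1 + m ^ 2 + m ^ 5) * a ^ 2 - (1 + m + m ^ 2 - m ^ 3 - m ^ 4 + m ^ 5) * (a * b) -
      (m + m ^ 2) * b ^ 2 - 3 * (1 + m ^ 2 - m ^ 3 + m ^ 4) * (a * d) -
      3 * (1 + m + m ^ 2 - m ^ 3 - m ^ 4) * (b * d), ?_⟩
    have h2 : (2 : ℤ) ≠ 0 := by norm_num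
    apply mul_left_cancel₀ h2
    linear_combination ht
  rw [eq_sub_of_add_eq hs] at h'
  have h2 : (1 - 4 * m ^ 2) ^ 2 * (T - m ^ 2) = 8 * m * (-s + m ^ 3 - 2 * m ^ 5) := by
    have h8 : (8 : ℤ) ≠ 0 := by norm_num
    apply mul_left_cancel₀ h8
    linear_combination h'
  have hcop : IsCoprime (8 * m) ((1 - 4 * m ^ 2) ^ 2) := by
    apply IsCoprime.pow_right
    apply IsCoprime.mul_left
    · exact ⟨2 * m ^ 4, 1 + 4 * m ^ 2, by ring⟩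
    · exact ⟨4 * m, 1, by ring⟩
  have h3 : 8 * m ∣ (1 - 4 * m ^ 2) ^ 2 * (T - m ^ 2) := ⟨_, h2⟩
  obtain ⟨u, hu⟩ := hcop.dvd_of_dvd_mul_left h3
  refine ⟨u, ?_⟩
  exact_mod_cast hu

end Pool.Agent.Q278.RS
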